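import Pool.Agent.H.MP_a5aa7c_an.B

set_option autoImplicit false

namespace Pool.Agent.Results.MP_a5aa7c_an.Rank
open MeasureTheory AddCircle ComplexConjugate

section
variable {V : Type} [NormedAddCommGroup V] [InnerProductSpace ℂ V] [CompleteSpace V]

noncomputable def comm (T : V →L[ℂ] V) : V →L[ℂ] V := star T * T - T * star T

def Pos (D : V →L[ℂ] V) : Prop := D.IsPositive

def Rk (D : V →L[ℂ] V) (r : ℕ) : Prop := FiniteDimensional ℂ D.range ∧ Module.finrank ℂ D.range = r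

def Uni (ν : V →L[ℂ] V) : Prop := ν ∈ unitary (V →L[ℂ] V)

def Prj (P : V →L[ℂ] V) : Prop := IsStarProjection P ∧ P ≠ 0

def Linf (K : AddCircle (1 : ℝ) → V →L[ℂ] V) : Prop := MemLp K ⊤ haarAddCircle

noncomputable def coef (K : AddCircle (1 : ℝ) → V →L[ℂ] V) (m : ℤ) : V →L[ℂ] V := fourierCoeff K m

def Hinf (K : AddCircle (1 : ℝ) → V →L[ℂ] V) : Prop := Linf K ∧ ∀ m < 0, coef K m = 0

noncomputable def dif (A K : V →L[ℂ] V) : V →L[ℂ] V := A - K * star A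

def InE (Φ K : AddCircle (1 : ℝ) → V →L[ℂ] V) : Prop :=
  Hinf K ∧ (∀ᵐ t ∂haarAddCircle, ‖K t‖ ≤ 1) ∧ Hinf fun t => dif (Φ t) (K t)

noncomputable def bl (a z : ℂ) : ℂ := (z - a) / (1 - conj a * z)

noncomputable def fac (p : ℂ × (V →L[ℂ] V)) (z : ℂ) : V →L[ℂ] V := bl p.1 z • p.2 + (1 - p.2)

noncomputable def bp (ν : V →L[ℂ] V) (l : List (ℂ × (V →L[ℂ] V))) (z : ℂ) : V →L[ℂ] V :=
  ν * (l.map fun p => fac p z).prod
end

def HypoRank (V : Type) [NormedAddCommGroup V] [InnerProductSpace ℂ V] [CompleteSpace V] (P : (V → V) → Prop)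
    (r : ℕ) : Prop := ∃ T : V →L[ℂ] V, P T ∧ Pos (comm T) ∧ Rk (comm T) r

noncomputable abbrev H2 (F : Type) [NormedAddCommGroup F] := lp (fun _ : ℕ => F) 2

def Toep {F : Type} [NormedAddCommGroup F] [InnerProductSpace ℂ F] [CompleteSpace F]
    (Φ : AddCircle (1 : ℝ) → F →L[ℂ] F) (T : H2 F → H2 F) : Prop :=
  ∀ (i j : ℕ) (v : F), T (lp.single 2 j v) i = coef Φ (i - j) v

theorem result {F : Type} [NormedAddCommGroup F] [InnerProductSpace ℂ F] [FiniteDimensional ℂ F] [CompleteSpace F]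
    (Φ : AddCircle (1 : ℝ) → F →L[ℂ] F) (hΦ : Linf Φ) (r : ℕ) (h : HypoRank (H2 F) (Toep Φ) r) :
    ∃ (ν : F →L[ℂ] F) (l : List (ℂ × (F →L[ℂ] F))), Uni ν ∧ (∀ p ∈ l, ‖p.1‖ < 1 ∧ Prj p.2) ∧
      InE Φ (fun t => bp ν l (fourier 1 t)) ∧ l.length = r ∧
      ∀ z : ℂ, (bp ν l z).det = ν.det * (l.map fun p => bl p.1 z).prod := by
  obtain ⟨T, hT, hD, hf, rfl⟩ := h
  obtain ⟨ν, hν, l, hl, hp, h1, h2, h3, h4, h5⟩ := Pool.Agent.H.MP_a5aa7c_an.main hΦ hT hD hf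
  have e : ∀ z, bp ν (l.map fun p => (p.1, InnerProductSpace.rankOne ℂ p.2 p.2)) z =
      Pool.Agent.H.MP_a5aa7c_an.BP ν l z := fun z => by
    rw [bp, List.map_map]; rfl
  refine ⟨ν, l.map fun p => (p.1, InnerProductSpace.rankOne ℂ p.2 p.2), hν, fun p hp' => ?_, ?_, (List.length_map _).trans hl,
    fun z => ?_⟩
  · obtain ⟨q, hq, rfl⟩ := List.mem_map.1 hp'
    have n : q.2 ≠ 0 := fun h => by simpa [h] using (hp q hq).2
    exact ⟨(hp q hq).1, InnerProductSpace.isStarProjection_rankOne_self (hp q hq).2,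
      InnerProductSpace.rankOne_ne_zero n n⟩
  · simp only [e]
    exact ⟨⟨h2, h3⟩, Filter.Eventually.of_forall h1, h4, h5⟩
  · rw [e, Pool.Agent.H.MP_a5aa7c_an.bp_det ν l (fun p h => (hp p h).2), List.map_map]; rfl

end Pool.Agent.Results.MP_a5aa7c_an.Rank
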